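import Pool.Agent.V11243.TreeWD

/-!
# Weak diamond and uniformization on trees without stationary antichains

If `2 ^ ℵ₀ < 2 ^ ℵ₁` then for every ladder system and every family of at most `2 ^ ℵ₀` many
`ℵ₁`-trees without stationary antichains there is one monochromatic 2-colouring of the ladder system
which is uniformized on no tree of the family.
-/

set_option autoImplicit false

open Set Cardinal Ordinal

namespace Pool.Agent.Results.MP_66bd88_lc.NoUniformization

open Pool.Agent.Y128.WD (IsTree ht)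

/-- An `ℵ₁`-tree: every node has countable height, every level below `ω₁` is non-empty, and all
levels are countable. -/
structure IsAlephOneTree (T : Type) [PartialOrder T] [IsTree T] : Prop where
  ht_lt : ∀ t : T, ht t < ω_ 1
  level_nonempty : ∀ α < ω_ 1, ∃ t : T, ht t = α
  level_countable : ∀ α : Ordinal.{0}, {t : T | ht t = α}.Countable

/-- `A` is a stationary antichain of `T`: an antichain for which the set of the heights of its
nodes is stationary in `ω₁`. -/
def IsStationaryAntichain {T : Type} [PartialOrder T] [IsTree T] (A : Set T) : Prop :=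
  IsAntichain (· ≤ ·) A ∧ IsStationary {δ : Set.Iio (Ordinal.omega.{0} 1) | ∃ a ∈ A, ht a = δ.1}

/-- A subtree of `T`: a non-empty downward closed set `S` such that every node of `S` has
extensions in `S` of arbitrarily large height below `ω₁`. -/
structure IsSubtree {T : Type} [PartialOrder T] [IsTree T] (S : Set T) : Prop where
  nonempty : S.Nonempty
  lower : ∀ s ∈ S, ∀ u ≤ s, u ∈ S
  pruned : ∀ s ∈ S, ∀ β < ω_ 1, ∃ t ∈ S, s ≤ t ∧ β ≤ ht t

/-- A ladder system: for every countable limit ordinal `α`, the set `C α` is a cofinal subset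
of `α` of order type `ω`, i.e. the range of a strictly increasing sequence cofinal in `α`. -/
def IsLadderSystem (C : Ordinal.{0} → Set Ordinal.{0}) : Prop :=
  ∀ α < ω_ 1, Order.IsSuccLimit α → ∃ e : ℕ → Ordinal.{0}, StrictMono e ∧ Set.range e = C α ∧
    (∀ n, e n < α) ∧ ∀ β < α, ∃ n, β < e n

/-- A 2-colouring of `C` is a function `f`, where `f α ξ` is the colour of `ξ ∈ C α`. It is
monochromatic if for every countable limit ordinal `α` the colour `f α ξ` is the same for all
`ξ ∈ C α`. -/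
def Monochromatic (C : Ordinal.{0} → Set Ordinal.{0}) (f : Ordinal.{0} → Ordinal.{0} → Bool) :
    Prop :=
  ∀ α < ω_ 1, Order.IsSuccLimit α → ∃ n, ∀ ξ ∈ C α, f α ξ = n

/-- `φ`, restricted to `S`, is a `T`-uniformization of the 2-colouring `f` of `C`: the domain `S` is
a subtree of `T`, and for every `s ∈ S` of limit height `α`, for all but finitely many
`ξ ∈ C α`, the predecessor `u` of `s` of height `ξ` satisfies `φ u = f α ξ`. -/
def IsUniformization {T : Type} [PartialOrder T] [IsTree T] (C : Ordinal.{0} → Set Ordinal.{0})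
    (f : Ordinal.{0} → Ordinal.{0} → Bool) (S : Set T) (φ : T → Bool) : Prop :=
  IsSubtree S ∧ ∀ s ∈ S, Order.IsSuccLimit (ht s) →
    {ξ | ξ ∈ C (ht s) ∧ ¬ ∃ u < s, ht u = ξ ∧ φ u = f (ht s) ξ}.Finite

theorem succ_aleph0_ord : (Order.succ Cardinal.aleph0.{0}).ord = Ordinal.omega.{0} 1 := by
  rw [Cardinal.succ_aleph0, Cardinal.ord_aleph]

theorem stationary_cast {P : Ordinal.{0} → Prop}
    (h : IsStationary {δ : Pool.Agent.Y128.WD.W Cardinal.aleph0.{0} | P δ.1}) :
    IsStationary {δ : Set.Iio (Ordinal.omega.{0} 1) | P δ.1} := by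
  have h1 : ∀ o : Ordinal.{0}, (Order.succ Cardinal.aleph0.{0}).ord = o →
      IsStationary {δ : Set.Iio o | P δ.1} := by
    rintro _ rfl
    exact h
  exact h1 _ succ_aleph0_ord

/-- **Theorem.** Assume `2 ^ ℵ₀ < 2 ^ ℵ₁`, let `C` be a ladder system and `T i` (`i : I`) a family of
at most `2 ^ ℵ₀` many `ℵ₁`-trees without stationary antichains. There is a monochromatic
2-colouring of `C` which has no `T i`-uniformization for any `i`. -/
theorem result (h2 : (2 : Cardinal.{0}) ^ ℵ₀ < 2 ^ ℵ_ 1)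
    (C : Ordinal.{0} → Set Ordinal.{0}) (hC : IsLadderSystem C)
    (I : Type) (hI : #I ≤ 2 ^ ℵ₀) (T : I → Type) [∀ i, PartialOrder (T i)] [∀ i, IsTree (T i)]
    (hT : ∀ i, IsAlephOneTree (T i)) (hA : ∀ i, ¬ ∃ A : Set (T i), IsStationaryAntichain A) :
    ∃ f : Ordinal.{0} → Ordinal.{0} → Bool, Monochromatic C f ∧
      ∀ (i : I) (S : Set (T i)) (φ : T i → Bool), ¬ IsUniformization C f S φ := by
  classical
  have h2' : (2 : Cardinal.{0}) ^ Cardinal.aleph0.{0} < 2 ^ (Order.succ Cardinal.aleph0.{0}) := by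
    rw [Cardinal.succ_aleph0]
    exact h2
  have hWD := Pool.Agent.Y128.WD.weakDiamond_limits le_rfl h2'
  have hlev : ∀ i, Pool.Agent.Y128.WD.LevelsLE Cardinal.aleph0 (T i) := by
    intro i α
    have := (hT i).level_countable α
    exact Cardinal.le_aleph0_iff_set_countable.2 this
  have hV : Cardinal.mk Bool ≤ 2 ^ Cardinal.aleph0.{0} := by
    exact (Cardinal.mk_le_aleph0).trans (Cardinal.cantor _).le
  obtain ⟨g, hg⟩ := Pool.Agent.V11243.TreeWD.family le_rfl hWD hI T hlev Bool hV
    (fun i s φ => decide ({ξ | ξ ∈ C (ht s) ∧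
      ¬ ∃ u : {u : T i // u < s}, ht u.1 = ξ ∧ φ u = true}.Finite))
  refine ⟨fun α _ => if h : α < (Order.succ Cardinal.aleph0.{0}).ord then g ⟨α, h⟩ else false,
    fun α _ _ => ⟨_, fun ξ _ => rfl⟩, fun i S φ hSφ => ?_⟩
  obtain ⟨hS, hφ⟩ := hSφ
  have htall : Pool.Agent.Y128.WD.IsTall Cardinal.aleph0 S := by
    refine ⟨hS.lower, fun β => ?_⟩
    obtain ⟨s, hs⟩ := hS.nonempty
    have hβ : β.1 < ω_ 1 := lt_of_lt_of_eq β.2 succ_aleph0_ord
    obtain ⟨t, ht1, -, ht2⟩ := hS.pruned s hs β.1 hβ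
    exact ⟨t, ht1, ht2⟩
  have hst := hg i S φ htall ?_
  · refine hA i ⟨{a | a ∉ S ∧ ∀ u < a, u ∈ S}, ?_, ?_⟩
    · intro a ha b hb hne hle
      exact ha.1 (hb.2 a (lt_of_le_of_ne hle hne))
    · refine (stationary_cast (P := fun δ => Order.IsSuccLimit δ ∧
        ∃ a, (a ∉ S ∧ ∀ u < a, u ∈ S) ∧ ht a = δ) hst).mono ?_
      rintro δ ⟨-, a, ha, had⟩
      exact ⟨a, ha, had⟩
  · intro hbad
    obtain ⟨δ, hδL, s, hsS, hsδ, hne⟩ := hbad.nonempty
    apply hne
    have hlim : Order.IsSuccLimit (ht s) := by rw [hsδ]; exact hδL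
    have hfin := hφ s hsS hlim
    have h3 : ht s < (Order.succ Cardinal.aleph0.{0}).ord := hsδ ▸ δ.2
    have h4 : (⟨ht s, h3⟩ : Pool.Agent.Y128.WD.W Cardinal.aleph0) = δ := Subtype.ext hsδ
    simp only [dif_pos h3, h4] at hfin
    have hinf : (C (ht s)).Infinite := by
      have h5 : ht s < ω_ 1 := by
        rw [← succ_aleph0_ord]
        exact h3
      obtain ⟨e, he1, he2, -⟩ := hC (ht s) h5 hlim
      rw [← he2]
      exact Set.infinite_range_of_injective he1.injective
    cases hgδ : g δ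
    · rw [decide_eq_false_iff_not]
      intro hfin2
      apply hinf
      refine (hfin.union hfin2).subset ?_
      intro ξ hξ
      by_contra hno
      rw [Set.mem_union, not_or] at hno
      obtain ⟨n1, n2⟩ := hno
      have m1 : ∃ u < s, ht u = ξ ∧ φ u = g δ := by
        by_contra hm
        exact n1 ⟨hξ, hm⟩
      have m2 : ∃ u : {u : T i // u < s}, ht u.1 = ξ ∧ φ u.1 = true := by
        by_contra hm
        exact n2 ⟨hξ, hm⟩
      obtain ⟨u, hu, hu1, hu2⟩ := m1
      obtain ⟨v, hv1, hv2⟩ := m2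
      have huv : u = v.1 := Pool.Agent.Y128.WD.eq_of_ht hu v.2 (hu1.trans hv1.symm)
      rw [← huv, hu2, hgδ] at hv2
      exact Bool.false_ne_true hv2
    · rw [decide_eq_true_iff]
      refine hfin.subset ?_
      rintro ξ ⟨hξ, hno⟩
      refine ⟨hξ, ?_⟩
      rintro ⟨u, hu, hu1, hu2⟩
      apply hno
      exact ⟨⟨u, hu⟩, hu1, by rw [← hgδ]; exact hu2⟩

end Pool.Agent.Results.MP_66bd88_lc.NoUniformization
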